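import Pool.Agent.H333.ESB.LowkA

/-!
# Project ESB, job LOWK: many extensions with group `(ℤ/2)^m` (helper333 for helper575)
-/

set_option autoImplicit false

namespace Pool.Agent.H333.ESB

open NumberField IsDedekindDomain Finset
open Pool.Agent.Q51.EL (Par)
open Pool.Agent.Q68.ESB.Lw (nm)
open Pool.Agent.H575.ESB (MQ RamK condK Gen S_GEN2 S_LOWK)

section two

theorem add_self_two (a : ZMod 2) : a + a = 0 := by
  revert a
  decide

theorem eq_ite_two (a : ZMod 2) : (if a = 1 then (1 : ZMod 2) else 0) = a := by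
  revert a
  decide

theorem ne_zero_two (a : ZMod 2) (h : a ≠ 0) : a = 1 := by
  revert a
  decide

variable {F : Type} [Field F] [NumberField F]

/-- the parity of the exponent -/
noncomputable def pv (v : HeightOneSpectrum (𝓞 F)) (x : F) : ZMod 2 := ((lg v x : ℤ) : ZMod 2)

theorem pv_mul (v : HeightOneSpectrum (𝓞 F)) {x y : F} (hx : x ≠ 0) (hy : y ≠ 0) :
    pv v (x * y) = pv v x + pv v y := by
  unfold pv
  rw [lg_mul v hx hy]
  push_cast
  rfl

theorem pv_sq (v : HeightOneSpectrum (𝓞 F)) {x : F} (hx : x ≠ 0) : pv v (x ^ 2) = 0 := by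
  rw [pow_two, pv_mul v hx hx, add_self_two]

theorem pv_prod (v : HeightOneSpectrum (𝓞 F)) {α : Type} (s : Finset α) (f : α → F)
    (hf : ∀ i ∈ s, f i ≠ 0) : pv v (∏ i ∈ s, f i) = ∑ i ∈ s, pv v (f i) := by
  unfold pv
  rw [lg_prod v s f hf]
  push_cast
  rfl

theorem par_pv (v : HeightOneSpectrum (𝓞 F)) {x : F} (hx : x ≠ 0) : Par v x 1 ↔ pv v x = 1 := by
  rw [par_iff v hx]
  unfold pv
  have h : ((1 : ℤ) : ZMod 2) = 1 := by norm_num
  rw [← h, ZMod.intCast_eq_intCast_iff]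
  unfold Int.ModEq
  norm_num

open scoped Classical in
theorem pv_gen (v : HeightOneSpectrum (𝓞 F)) (A : Finset (HeightOneSpectrum (𝓞 F))) {x : 𝓞 F}
    (hx : Ideal.span {x} = ∏ w ∈ A, w.asIdeal) : pv v (x : F) = if v ∈ A then 1 else 0 := by
  unfold pv
  rw [lg_gen v A hx]
  split_ifs
  · decide
  · decide

theorem gen_ne (A : Finset (HeightOneSpectrum (𝓞 F))) {x : 𝓞 F}
    (hx : Ideal.span {x} = ∏ w ∈ A, w.asIdeal) : (x : F) ≠ 0 := by
  intro h
  have h0 : x = 0 := by exact_mod_cast h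
  rw [h0] at hx
  apply Pool.Agent.Q151.ESB.prod_ideal_ne A
  rw [← hx]
  simp

end two

/-- the index set: the nonzero vectors -/
abbrev Ix (m : ℕ) : Type := {g : Fin m → ZMod 2 // g ≠ 0}

section tuple

open scoped Classical

variable {F : Type} [Field F] [NumberField F] {m : ℕ}

/-- the generators `x g` of the products of the primes in `τ g` -/
structure Tp (τ : Ix m → Finset (HeightOneSpectrum (𝓞 F))) (x : Ix m → 𝓞 F) : Prop where
  pr : ∀ g, Ideal.span {x g} = ∏ v ∈ τ g, v.asIdeal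
  ne : ∀ g, (τ g).Nonempty
  dj : ∀ g h, g ≠ h → Disjoint (τ g) (τ h)

/-- the elements whose square roots generate the extension -/
noncomputable def bj (x : Ix m → 𝓞 F) (j : Fin m) : F :=
  ∏ g ∈ univ.filter (fun g : Ix m => g.1 j = 1), (x g : F)

variable {τ : Ix m → Finset (HeightOneSpectrum (𝓞 F))} {x : Ix m → 𝓞 F}

theorem bj_ne (h : Tp τ x) (j : Fin m) : bj x j ≠ 0 :=
  Finset.prod_ne_zero_iff.2 fun g _ => gen_ne (τ g) (h.pr g)

theorem prod_ne (h : Tp τ x) (S : Finset (Fin m)) : ∏ j ∈ S, bj x j ≠ 0 :=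
  Finset.prod_ne_zero_iff.2 fun j _ => bj_ne h j

theorem pv_b (h : Tp τ x) (v : HeightOneSpectrum (𝓞 F)) (S : Finset (Fin m)) :
    pv v (∏ j ∈ S, bj x j) = ∑ g : Ix m, (∑ j ∈ S, g.1 j) * (if v ∈ τ g then 1 else 0) := by
  rw [pv_prod v S _ fun j _ => bj_ne h j]
  have h1 : ∀ j ∈ S, pv v (bj x j) = ∑ g : Ix m, g.1 j * (if v ∈ τ g then 1 else 0) := by
    intro j _
    unfold bj
    rw [pv_prod v _ _ fun g _ => gen_ne (τ g) (h.pr g), Finset.sum_filter]
    refine Finset.sum_congr rfl fun g _ => ?_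
    rw [pv_gen v (τ g) (h.pr g)]
    conv_rhs => rw [← eq_ite_two (g.1 j)]
    by_cases h2 : g.1 j = 1
    · rw [if_pos h2, if_pos h2, one_mul]
    · rw [if_neg h2, if_neg h2, zero_mul]
  rw [Finset.sum_congr rfl h1, Finset.sum_comm]
  exact Finset.sum_congr rfl fun g _ => (Finset.sum_mul _ _ _).symm

theorem pv_in (h : Tp τ x) {v : HeightOneSpectrum (𝓞 F)} (S : Finset (Fin m)) {g : Ix m}
    (hg : v ∈ τ g) : pv v (∏ j ∈ S, bj x j) = ∑ j ∈ S, g.1 j := by
  rw [pv_b h v S, Finset.sum_eq_single g]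
  · rw [if_pos hg, mul_one]
  · intro g' _ hne
    rw [if_neg, mul_zero]
    intro h'
    exact Finset.disjoint_left.1 (h.dj g' g hne) h' hg
  · intro h'
    exact absurd (Finset.mem_univ g) h'

theorem pv_out (h : Tp τ x) {v : HeightOneSpectrum (𝓞 F)} (S : Finset (Fin m))
    (hv : ∀ g, v ∉ τ g) : pv v (∏ j ∈ S, bj x j) = 0 := by
  rw [pv_b h v S]
  refine Finset.sum_eq_zero fun g _ => ?_
  rw [if_neg (hv g), mul_zero]

theorem pv_in1 (h : Tp τ x) {v : HeightOneSpectrum (𝓞 F)} (j : Fin m) {g : Ix m}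
    (hg : v ∈ τ g) : pv v (bj x j) = g.1 j := by
  have := pv_in h {j} hg
  rwa [Finset.prod_singleton, Finset.sum_singleton] at this

theorem pv_out1 (h : Tp τ x) {v : HeightOneSpectrum (𝓞 F)} (j : Fin m)
    (hv : ∀ g, v ∉ τ g) : pv v (bj x j) = 0 := by
  have := pv_out h {j} hv
  rwa [Finset.prod_singleton] at this

/-- no square -/
theorem b_nsq (h : Tp τ x) (S : Finset (Fin m)) (hS : S.Nonempty) : ¬ IsSquare (∏ j ∈ S, bj x j) := by
  obtain ⟨j₀, hj₀⟩ := hS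
  have hg0 : (Pi.single j₀ 1 : Fin m → ZMod 2) ≠ 0 := by
    intro h'
    have := congrFun h' j₀
    rw [Pi.single_eq_same, Pi.zero_apply] at this
    exact absurd this (by decide)
  obtain ⟨v, hv⟩ := h.ne ⟨Pi.single j₀ 1, hg0⟩
  have h1 := pv_in h S hv
  rw [Finset.sum_pi_single', if_pos hj₀] at h1
  rintro ⟨r, hr⟩
  have hr0 : r ≠ 0 := by
    rintro rfl
    exact prod_ne h S (by rw [hr, mul_zero])
  rw [hr, pv_mul v hr0 hr0, add_self_two] at h1
  exact absurd h1 (by decide)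

/-- the sets are determined by the parities -/
theorem mem_iff (h : Tp τ x) (v : HeightOneSpectrum (𝓞 F)) (g : Ix m) :
    v ∈ τ g ↔ ∀ j, pv v (bj x j) = g.1 j := by
  constructor
  · intro hv j
    exact pv_in1 h j hv
  · intro hv
    have hex : ∃ g', v ∈ τ g' := by
      by_contra hcon
      push Not at hcon
      apply g.2
      funext j
      rw [← hv j, pv_out1 h j hcon]
      rfl
    obtain ⟨g', hg'⟩ := hex
    have : g' = g := by
      apply Subtype.ext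
      funext j
      rw [← hv j, pv_in1 h j hg']
    rwa [this] at hg'

variable {K : IntermediateField F (AlgebraicClosure F)}

/-- the ramified primes -/
theorem ram_iff (h : Tp τ x) (hK : Gen K (bj x)) (v : HeightOneSpectrum (𝓞 F)) :
    RamK K v ↔ ∃ g, v ∈ τ g := by
  constructor
  · rintro ⟨D, hD, ⟨s, hs, hsD⟩, hpar⟩
    obtain ⟨S, t, ht⟩ := hK.all s hs D hsD
    by_contra hcon
    push Not at hcon
    have ht0 : t ≠ 0 := by
      rintro rfl
      apply hD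
      rw [ht]
      simp
    rw [par_pv v hD, ht, pv_mul v (prod_ne h S) (pow_ne_zero 2 ht0), pv_sq v ht0, add_zero,
      pv_out h S hcon] at hpar
    exact absurd hpar (by decide)
  · rintro ⟨g, hg⟩
    have hj : ∃ j, g.1 j ≠ 0 := by
      by_contra hcon
      push Not at hcon
      exact g.2 (funext hcon)
    obtain ⟨j, hj⟩ := hj
    refine ⟨bj x j, bj_ne h j, hK.sqr j, ?_⟩
    rw [par_pv v (bj_ne h j), pv_in1 h j hg]
    exact ne_zero_two _ hj

/-- the conductor -/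
theorem cond_eq (h : Tp τ x) (hK : Gen K (bj x)) : condK K = ∏ g, nm (nu F) (τ g) := by
  unfold condK
  have h1 : ∀ v, RamK K v ↔ v ∈ univ.biUnion τ := by
    intro v
    rw [ram_iff h hK, Finset.mem_biUnion]
    simp
  have h2 : (∏ᶠ (v : HeightOneSpectrum (𝓞 F)) (_ : RamK K v), Ideal.absNorm v.asIdeal) =
      ∏ᶠ (v : HeightOneSpectrum (𝓞 F)) (_ : v ∈ univ.biUnion τ), Ideal.absNorm v.asIdeal :=
    finprod_congr fun v => by rw [propext (h1 v)]
  rw [h2, finprod_mem_finset_eq_prod, Finset.prod_biUnion]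
  · rfl
  · intro g _ g' _ hne
    exact h.dj g g' hne

end tuple

/-- The fibres are bounded. -/
theorem fibre {F : Type} [Field F] [NumberField F] {m : ℕ}
    (𝒯 : Finset (Ix m → Finset (HeightOneSpectrum (𝓞 F))))
    (xx : (Ix m → Finset (HeightOneSpectrum (𝓞 F))) → Ix m → 𝓞 F)
    (Kf : (Ix m → Finset (HeightOneSpectrum (𝓞 F))) → IntermediateField F (AlgebraicClosure F))
    (hT : ∀ τ ∈ 𝒯, Tp τ (xx τ)) (hK : ∀ τ ∈ 𝒯, Gen (Kf τ) (bj (xx τ)))
    (K : IntermediateField F (AlgebraicClosure F)) [DecidableEq (IntermediateField F (AlgebraicClosure F))] :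
    (𝒯.filter fun τ => Kf τ = K).card ≤ 2 ^ (m * m) := by
  classical
  rcases (𝒯.filter fun τ => Kf τ = K).eq_empty_or_nonempty with h | ⟨τ₀, hτ₀⟩
  · rw [h]
    simp
  rw [Finset.mem_filter] at hτ₀
  have hex : ∀ τ, ∀ j, ∃ (S : Finset (Fin m)), τ ∈ 𝒯.filter (fun τ => Kf τ = K) →
      ∃ t : F, bj (xx τ) j = (∏ i ∈ S, bj (xx τ₀) i) * t ^ 2 := by
    intro τ j
    by_cases hτ : τ ∈ 𝒯.filter (fun τ => Kf τ = K)
    · have hτ' := Finset.mem_filter.1 hτ
      obtain ⟨s, hs, hs2⟩ := (hK τ hτ'.1).sqr j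
      rw [hτ'.2, ← hτ₀.2] at hs
      obtain ⟨S, t, ht⟩ := (hK τ₀ hτ₀.1).all s hs _ hs2
      exact ⟨S, fun _ => ⟨t, ht⟩⟩
    · exact ⟨∅, fun h => absurd h hτ⟩
  choose S hS using hex
  have hinj : Set.InjOn S (𝒯.filter fun τ => Kf τ = K) := by
    intro τ hτ τ' hτ' hSS
    have hτ1 := Finset.mem_filter.1 (Finset.mem_coe.1 hτ)
    have hτ1' := Finset.mem_filter.1 (Finset.mem_coe.1 hτ')
    have key : ∀ τ, τ ∈ 𝒯.filter (fun τ => Kf τ = K) → ∀ (j : Fin m)
        (v : HeightOneSpectrum (𝓞 F)),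
        pv v (bj (xx τ) j) = pv v (∏ i ∈ S τ j, bj (xx τ₀) i) := by
      intro τ hτ j v
      obtain ⟨t, ht⟩ := hS τ j hτ
      have hτ2 := Finset.mem_filter.1 hτ
      have ht0 : t ≠ 0 := by
        rintro rfl
        apply bj_ne (hT τ hτ2.1) j
        rw [ht]
        simp
      rw [ht, pv_mul v (prod_ne (hT τ₀ hτ₀.1) _) (pow_ne_zero 2 ht0), pv_sq v ht0, add_zero]
    funext g
    ext v
    rw [mem_iff (hT τ hτ1.1), mem_iff (hT τ' hτ1'.1)]
    refine forall_congr' fun j => ?_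
    rw [key τ hτ j v, key τ' hτ' j v, hSS]
  have h1 := Finset.card_le_card_of_injOn (t := (Finset.univ : Finset (Fin m → Finset (Fin m)))) S
    (fun _ _ => Finset.mem_coe.2 (Finset.mem_univ _)) hinj
  refine h1.trans (le_of_eq ?_)
  rw [Finset.card_univ, Fintype.card_fun, Fintype.card_finset, Fintype.card_fin, ← pow_mul]

theorem lowk : S_GEN2 → S_LOWK := by
  classical
  intro hG F _ _ m hm
  have hg0 : (Pi.single ⟨0, hm⟩ 1 : Fin m → ZMod 2) ≠ 0 := by
    intro h'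
    have := congrFun h' ⟨0, hm⟩
    rw [Pi.single_eq_same, Pi.zero_apply] at this
    exact absurd this (by decide)
  obtain ⟨c, X0, hc, hX0, h⟩ := tup F (Ix m) ⟨Pi.single ⟨0, hm⟩ 1, hg0⟩
  refine ⟨c / 2 ^ (m * m), X0, by positivity, hX0, fun X hX => ?_⟩
  obtain ⟨𝒯, hT, hcard⟩ := h X hX
  have hcI : Fintype.card (Ix m) - 1 = 2 ^ m - 2 := by
    have h1 : Fintype.card (Ix m) = 2 ^ m - 1 := by
      have h2 : Fintype.card (Fin m → ZMod 2) = 2 ^ m := by
        rw [Fintype.card_fun, ZMod.card, Fintype.card_fin]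
      rw [← h2]
      exact Set.card_ne_eq (0 : Fin m → ZMod 2)
    rw [h1]
    omega
  rw [hcI] at hcard
  -- the generators
  have hex : ∀ τ : Ix m → Finset (HeightOneSpectrum (𝓞 F)), ∃ x : Ix m → 𝓞 F, τ ∈ 𝒯 →
      Tp τ x := by
    intro τ
    by_cases hτ : τ ∈ 𝒯
    · obtain ⟨h1, h2, -⟩ := hT τ hτ
      choose x hx using fun g => (h1 g).1
      exact ⟨x, fun _ => ⟨hx, fun g => (h1 g).2, h2⟩⟩
    · exact ⟨fun _ => 0, fun h => absurd h hτ⟩
  choose xx hxx using hex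
  have hex2 : ∀ τ : Ix m → Finset (HeightOneSpectrum (𝓞 F)),
      ∃ K : IntermediateField F (AlgebraicClosure F), τ ∈ 𝒯 → MQ m K ∧ Gen K (bj (xx τ)) := by
    intro τ
    by_cases hτ : τ ∈ 𝒯
    · have h1 := hxx τ hτ
      obtain ⟨K, hK⟩ := hG F m (bj (xx τ)) (bj_ne h1) (b_nsq h1)
      exact ⟨K, fun _ => hK⟩
    · exact ⟨⊥, fun h => absurd h hτ⟩
  choose Kf hKf using hex2
  refine ⟨𝒯.image Kf, ?_, ?_⟩
  · intro K hK
    obtain ⟨τ, hτ, rfl⟩ := mem_image.1 hK
    refine ⟨(hKf τ hτ).1, ?_⟩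
    rw [cond_eq (hxx τ hτ) (hKf τ hτ).2]
    push_cast
    exact (hT τ hτ).2.2
  · have h1 := Finset.card_le_mul_card_image (f := Kf) 𝒯 (2 ^ (m * m)) (fun K _ =>
      fibre 𝒯 xx Kf hxx (fun τ hτ => (hKf τ hτ).2) K)
    have h2 : (𝒯.card : ℝ) ≤ 2 ^ (m * m) * ((𝒯.image Kf).card : ℝ) := by exact_mod_cast h1
    have h3 : (0 : ℝ) < 2 ^ (m * m) := by positivity
    have h4 := hcard.trans h2
    have h5 : c / 2 ^ (m * m) * X * (1 + Real.log X) ^ (2 ^ m - 2) =
        (c * X * (1 + Real.log X) ^ (2 ^ m - 2)) / 2 ^ (m * m) := by ring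
    rw [h5, div_le_iff₀ h3, mul_comm ((𝒯.image Kf).card : ℝ)]
    exact h4

end Pool.Agent.H333.ESB
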