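import Pool.Agent.H575.ESB.StmK
import Pool.Graph.R_pool_sql_team_seeded_3997aac3.Q68.ESB.LowbC
import Pool.Graph.R_pool_sql_team_seeded_3997aac3.Q211.ESB.LowA
import Pool.Graph.R_pool_sql_team_seeded_3997aac3.Q151.ESB.IdlA

/-!
# Project ESB, job LOWK, part A: parities of valuations, and tuples of sets of primes
(helper333 for helper575)
-/

set_option autoImplicit false

namespace Pool.Agent.H333.ESB

open NumberField IsDedekindDomain Finset
open Pool.Agent.Q51.EL (Par)
open Pool.Agent.Q151.ESB (prod_ideal_ne dvd_prod_ideal prod_ideal_inj norm_prod_ideal)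
open Pool.Agent.Q237.ESN (ids mem_ids ids_le one_le_nm)
open Pool.Agent.Q211.ESB.Lw (Qf mem_Qf count two_le_nm)
open Pool.Agent.Q68.ESB.Lw (nm Up tuples)

section par

variable {F : Type} [Field F] [NumberField F]

/-- minus the exponent of `v` in `x` -/
noncomputable def lg (v : HeightOneSpectrum (𝓞 F)) (x : F) : ℤ := WithZero.log (v.valuation F x)

theorem exp_lg (v : HeightOneSpectrum (𝓞 F)) {x : F} (hx : x ≠ 0) :
    v.valuation F x = WithZero.exp (lg v x) :=
  (WithZero.exp_log ((Valuation.ne_zero_iff _).2 hx)).symm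

theorem lg_mul (v : HeightOneSpectrum (𝓞 F)) {x y : F} (hx : x ≠ 0) (hy : y ≠ 0) :
    lg v (x * y) = lg v x + lg v y := by
  have h := exp_lg v (mul_ne_zero hx hy)
  rw [map_mul, exp_lg v hx, exp_lg v hy, ← WithZero.exp_add, WithZero.exp_inj] at h
  exact h.symm

theorem lg_one (v : HeightOneSpectrum (𝓞 F)) : lg v (1 : F) = 0 := by
  have h := lg_mul v (one_ne_zero (α := F)) one_ne_zero
  rw [mul_one] at h
  omega

theorem lg_prod (v : HeightOneSpectrum (𝓞 F)) {α : Type} (s : Finset α) (f : α → F)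
    (hf : ∀ i ∈ s, f i ≠ 0) : lg v (∏ i ∈ s, f i) = ∑ i ∈ s, lg v (f i) := by
  classical
  induction s using Finset.induction_on with
  | empty => simp [lg_one]
  | insert a s ha ih =>
    rw [Finset.prod_insert ha, Finset.sum_insert ha, lg_mul v (hf a (mem_insert_self a s))
      (Finset.prod_ne_zero_iff.2 fun i hi => hf i (mem_insert_of_mem hi)),
      ih fun i hi => hf i (mem_insert_of_mem hi)]

theorem lg_sq (v : HeightOneSpectrum (𝓞 F)) {x : F} (hx : x ≠ 0) : lg v (x ^ 2) = 2 * lg v x := by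
  rw [pow_two, lg_mul v hx hx]
  ring

theorem par_iff (v : HeightOneSpectrum (𝓞 F)) {x : F} (hx : x ≠ 0) :
    Par v x 1 ↔ lg v x % 2 = 1 := by
  unfold Pool.Agent.Q51.EL.Par
  rw [exp_lg v hx]
  constructor
  · rintro ⟨k, hk⟩
    rw [WithZero.exp_inj] at hk
    omega
  · intro h
    refine ⟨(lg v x - 1) / 2, ?_⟩
    rw [WithZero.exp_inj]
    omega

open scoped Classical in
theorem lg_gen (v : HeightOneSpectrum (𝓞 F)) (A : Finset (HeightOneSpectrum (𝓞 F))) {x : 𝓞 F}
    (hx : Ideal.span {x} = ∏ w ∈ A, w.asIdeal) : lg v (x : F) = -(if v ∈ A then 1 else 0) := by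
  have hx0 : x ≠ 0 := by
    rintro rfl
    apply prod_ideal_ne A
    rw [← hx]
    simp
  have h1 : v.valuation F (x : F) = WithZero.exp (-(multiplicity v.asIdeal (Ideal.span {x}) : ℤ)) := by
    rw [show (x : F) = algebraMap (𝓞 F) F x from rfl, v.valuation_of_algebraMap (K := F) x,
      v.intValuation_eq_exp_neg_multiplicity hx0]
  have hx1 : (x : F) ≠ 0 := fun h => hx0 (by exact_mod_cast h)
  rw [exp_lg v hx1, WithZero.exp_inj] at h1
  rw [h1, hx]
  congr 1
  by_cases h : v ∈ A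
  · rw [if_pos h]
    have : multiplicity v.asIdeal (∏ w ∈ A, w.asIdeal) = 1 := by
      refine multiplicity_eq_of_dvd_of_not_dvd ?_ ?_
      · rw [pow_one]
        exact (dvd_prod_ideal A v).2 h
      · rw [← Finset.mul_prod_erase A _ h, pow_succ, pow_one]
        intro h2
        have h3 := (mul_dvd_mul_iff_left v.ne_bot).1 h2
        have h4 := (dvd_prod_ideal (A.erase v) v).1 h3
        exact Finset.notMem_erase v A h4
    rw [this]
    norm_num
  · rw [if_neg h]
    have : multiplicity v.asIdeal (∏ w ∈ A, w.asIdeal) = 0 := by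
      refine multiplicity_eq_of_dvd_of_not_dvd ?_ ?_
      · rw [pow_zero]
        exact one_dvd _
      · rw [zero_add, pow_one]
        intro h2
        exact h ((dvd_prod_ideal A v).1 h2)
    rw [this]
    norm_num

end par

section cnt

variable (F : Type) [Field F] [NumberField F]

/-- the norm of a prime -/
noncomputable def nu (v : HeightOneSpectrum (𝓞 F)) : ℕ := Ideal.absNorm v.asIdeal

variable {F}

theorem two_le_nu (v : HeightOneSpectrum (𝓞 F)) : 2 ≤ nu F v := by
  have h := two_le_nm v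
  unfold nu
  exact_mod_cast h

theorem nu_fin (n : ℕ) : {v : HeightOneSpectrum (𝓞 F) | nu F v < n}.Finite := by
  have h := Ideal.finite_setOfPred_absNorm_le (S := 𝓞 F) n
  refine Set.Finite.of_finite_image (f := HeightOneSpectrum.asIdeal) (h.subset ?_) ?_
  · rintro _ ⟨v, hv, rfl⟩
    exact (show nu F v < n from hv).le
  · intro v _ w _ hvw
    exact HeightOneSpectrum.ext hvw

theorem nm_eq (A : Finset (HeightOneSpectrum (𝓞 F))) :
    nm (nu F) A = Ideal.absNorm (∏ v ∈ A, v.asIdeal) := by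
  rw [map_prod]
  rfl

theorem up_nu : ∃ C : ℝ, 0 < C ∧ Up (nu F) C := by
  classical
  obtain ⟨C, hC, h⟩ := ids_le F
  refine ⟨C, hC, fun t ht 𝒜 h𝒜 => ?_⟩
  refine le_trans ?_ (h t ht)
  have h1 : (𝒜.image fun A => ∏ v ∈ A, v.asIdeal) ⊆ ids F t := by
    intro I hI
    obtain ⟨A, hA, rfl⟩ := mem_image.1 hI
    rw [mem_ids]
    refine ⟨prod_ideal_ne A, ?_⟩
    have := h𝒜 A hA
    rwa [nm_eq] at this
  have h2 := card_le_card h1
  rw [card_image_of_injective _ prod_ideal_inj] at h2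
  exact_mod_cast h2

/-- the primes which divide an ideal -/
theorem dvd_fin {I : Ideal (𝓞 F)} (hI : I ≠ ⊥) : {v : HeightOneSpectrum (𝓞 F) | v.asIdeal ∣ I}.Finite := by
  have h := Ideal.finite_setOfPred_absNorm_le (S := 𝓞 F) (Ideal.absNorm I)
  refine Set.Finite.of_finite_image (f := HeightOneSpectrum.asIdeal) (h.subset ?_) ?_
  · rintro _ ⟨v, hv, rfl⟩
    have h1 : Ideal.absNorm v.asIdeal ∣ Ideal.absNorm I := by
      obtain ⟨J, hJ⟩ := (hv : v.asIdeal ∣ I)
      rw [hJ, map_mul]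
      exact dvd_mul_right _ _
    refine Nat.le_of_dvd (Nat.pos_of_ne_zero ?_) h1
    rw [Ne, Ideal.absNorm_eq_zero_iff]
    exact hI
  · intro v _ w _ hvw
    exact HeightOneSpectrum.ext hvw

open scoped Classical in
/-- the set of the primes which divide an ideal -/
noncomputable def ps (I : Ideal (𝓞 F)) : Finset (HeightOneSpectrum (𝓞 F)) :=
  if h : I ≠ ⊥ then (dvd_fin h).toFinset else ∅

theorem mem_ps {I : Ideal (𝓞 F)} (hI : I ≠ ⊥) {v : HeightOneSpectrum (𝓞 F)} :
    v ∈ ps I ↔ v.asIdeal ∣ I := by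
  unfold ps
  rw [dif_pos hI, Set.Finite.mem_toFinset]
  rfl

/-- squarefree ideals -/
theorem prod_ps {I : Ideal (𝓞 F)} (hI : I ≠ ⊥)
    (hsq : ∀ u : HeightOneSpectrum (𝓞 F), ¬ u.asIdeal ^ 2 ∣ I) : ∏ v ∈ ps I, v.asIdeal = I := by
  classical
  have h1 := Ideal.finprod_heightOneSpectrum_factorization hI
  have h2 : ∀ v : HeightOneSpectrum (𝓞 F), v.maxPowDividing I =
      if v ∈ ps I then v.asIdeal else 1 := by
    intro v
    rw [HeightOneSpectrum.maxPowDividing_eq_pow_multiplicity hI v]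
    by_cases h : v ∈ ps I
    · rw [if_pos h]
      have h3 : multiplicity v.asIdeal I = 1 := by
        refine multiplicity_eq_of_dvd_of_not_dvd ?_ (hsq v)
        rw [pow_one]
        exact (mem_ps hI).1 h
      rw [h3, pow_one]
    · rw [if_neg h]
      have h3 : multiplicity v.asIdeal I = 0 := by
        refine multiplicity_eq_of_dvd_of_not_dvd ?_ ?_
        · rw [pow_zero]
          exact one_dvd _
        · rw [zero_add, pow_one]
          exact fun h4 => h ((mem_ps hI).2 h4)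
      rw [h3, pow_zero]
  refine Eq.trans ?_ h1
  rw [finprod_congr h2, finprod_eq_prod_of_mulSupport_subset (s := ps I)]
  · exact Finset.prod_congr rfl fun v hv => (if_pos hv).symm
  · intro v hv
    by_contra h
    apply hv
    exact if_neg fun h' => h (by simpa using h')

open scoped Classical in
/-- many tuples of disjoint sets of primes with principal products -/
theorem tup (F : Type) [Field F] [NumberField F] (ι : Type) [Fintype ι] (i₀ : ι) :
    ∃ c X0 : ℝ, 0 < c ∧ 1 ≤ X0 ∧ ∀ X : ℝ, X0 ≤ X →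
      ∃ 𝒯 : Finset (ι → Finset (HeightOneSpectrum (𝓞 F))),
      (∀ τ ∈ 𝒯, (∀ i, (∃ x : 𝓞 F, Ideal.span {x} = ∏ v ∈ τ i, v.asIdeal) ∧ (τ i).Nonempty) ∧
        (∀ i j, i ≠ j → Disjoint (τ i) (τ j)) ∧ (∏ i, (nm (nu F) (τ i) : ℝ)) ≤ X) ∧
      c * X * (1 + Real.log X) ^ (Fintype.card ι - 1) ≤ 𝒯.card := by
  obtain ⟨C, hC, hU⟩ := up_nu (F := F)
  obtain ⟨c, P0, hc, hcount⟩ := count F
  refine tuples i₀ (nu F) two_le_nu nu_fin C hC hU
    (fun A => ∃ x : 𝓞 F, Ideal.span {x} = ∏ v ∈ A, v.asIdeal) c hc P0 fun P hP => ?_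
  obtain ⟨t0, ht0, h⟩ := hcount P hP
  refine ⟨t0, ht0, fun t ht => ?_⟩
  set Q := (Qf F P 1 t).filter fun I => ∀ u : HeightOneSpectrum (𝓞 F), ¬ u.asIdeal ^ 2 ∣ I with hQ
  refine ⟨Q.image ps, ?_, ?_⟩
  · intro A hA
    obtain ⟨I, hI, rfl⟩ := mem_image.1 hA
    rw [hQ, mem_filter, mem_Qf] at hI
    obtain ⟨⟨⟨h1, h2⟩, ⟨J, hJ, hJ1⟩, h3⟩, h4⟩ := hI
    have h5 := prod_ps h1 h4
    refine ⟨?_, ?_, ?_⟩
    · have h6 : (J : Ideal (𝓞 F)).IsPrincipal := by
        refine (ClassGroup.mk0_eq_one_iff J.2).1 ?_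
        exact hJ1
      obtain ⟨x, hx⟩ := h6.principal
      refine ⟨x, ?_⟩
      rw [h5, ← hJ]
      exact hx.symm
    · rw [Finset.disjoint_left]
      intro v hv hvP
      exact h3 v hvP ((mem_ps h1).1 hv)
    · rw [nm_eq, h5]
      exact h2
  · have h1 : (Q.image ps).card = Q.card := by
      refine card_image_of_injOn ?_
      intro I hI J hJ hIJ
      rw [hQ, mem_coe, mem_filter, mem_Qf] at hI hJ
      rw [← prod_ps hI.1.1.1 hI.2, ← prod_ps hJ.1.1.1 hJ.2]
      exact congrArg (fun A => ∏ v ∈ A, v.asIdeal) hIJ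
    rw [h1]
    exact h t ht

end cnt

end Pool.Agent.H333.ESB
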